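import Pool.Agent.Y486.ComplGen

/-!
# No averaging operators onto `B(κ)` from any power of any `A(Λ)`

For an uncountable `κ`, a discrete space `Λ` of arbitrary cardinality and an arbitrary index set `I`
the space `C(B(κ))` is not isomorphic to a complemented subspace of `C(A(Λ)^I)`; in particular no
continuous map `A(Λ)^I → B(κ)` admits an averaging operator.  The case `Λ = κ`, `I = ℕ` of the
second assertion is the question of the problem.
-/

set_option autoImplicit false

namespace Pool.Agent.Results.MP_3b565c_an.NoComplementedCopy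

open Pool.Agent.Helper358.LOne

universe u v w

/-- Let `κ` be uncountable, `Λ` a discrete space of any cardinality, `I` any set; `B(κ) = Ball κ`
and `A(Λ) = OnePoint Λ`.
(1) There are no bounded linear operators `S : C(B(κ)) → C(A(Λ)^I)`, `T : C(A(Λ)^I) → C(B(κ))` with
`T ∘ S = id`: `C(B(κ))` is not isomorphic to a complemented subspace of `C(A(Λ)^I)`.
(2) No continuous map `f : A(Λ)^I → B(κ)` admits an averaging operator. -/
theorem result (κ : Type u) [Uncountable κ] (Λ : Type v) [TopologicalSpace Λ] [DiscreteTopology Λ]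
    (I : Type w) :
    (¬ ∃ (S : C(Ball κ, ℝ) →L[ℝ] C(I → OnePoint Λ, ℝ))
        (T : C(I → OnePoint Λ, ℝ) →L[ℝ] C(Ball κ, ℝ)), ∀ g : C(Ball κ, ℝ), T (S g) = g) ∧
    (∀ f : C(I → OnePoint Λ, Ball κ),
      ¬ ∃ T : C(I → OnePoint Λ, ℝ) →L[ℝ] C(Ball κ, ℝ), ∀ g : C(Ball κ, ℝ), T (g.comp f) = g) := by
  have h1 : ¬ ∃ (S : C(Ball κ, ℝ) →L[ℝ] C(I → OnePoint Λ, ℝ))
      (T : C(I → OnePoint Λ, ℝ) →L[ℝ] C(Ball κ, ℝ)), ∀ g : C(Ball κ, ℝ), T (S g) = g := by
    rintro ⟨S, T, hTS⟩
    exact Pool.Agent.Y486.ComplGen.no_compl S T hTS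
  refine ⟨h1, ?_⟩
  rintro f ⟨T, hT⟩
  let S : C(Ball κ, ℝ) →L[ℝ] C(I → OnePoint Λ, ℝ) :=
    { toFun := fun g => g.comp f
      map_add' := fun _ _ => by ext x; rfl
      map_smul' := fun _ _ => by ext x; rfl
      cont := ContinuousMap.continuous_precomp f }
  exact h1 ⟨S, T, hT⟩

end Pool.Agent.Results.MP_3b565c_an.NoComplementedCopy
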